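import Pool.Agent.W262.SH.StmK

/-!
# Project SM: the largest unlinked set
-/

set_option autoImplicit false

namespace Pool.Agent.W469.SM.Comb

open Finset Pool.Agent.W262.RK Pool.Agent.W262.SH

section form

variable (ι : Type) [Fintype ι]

abbrev V : Type := (ι → ZMod 2) × (ι → ZMod 2)

/-- the symmetric form -/
def B : V ι →ₗ[ZMod 2] V ι →ₗ[ZMod 2] ZMod 2 :=
  LinearMap.mk₂ (ZMod 2) (fun x y => x.1 ⬝ᵥ y.2 + x.2 ⬝ᵥ y.1)
    (fun x x' y => by
      simp only [Prod.fst_add, Prod.snd_add, add_dotProduct]
      ring)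
    (fun c x y => by
      simp only [Prod.smul_fst, Prod.smul_snd, smul_dotProduct, smul_add])
    (fun x y y' => by
      simp only [Prod.fst_add, Prod.snd_add, dotProduct_add]
      ring)
    (fun c x y => by
      simp only [Prod.smul_fst, Prod.smul_snd, dotProduct_smul, smul_add])

theorem B_apply (x y : V ι) : B ι x y = x.1 ⬝ᵥ y.2 + x.2 ⬝ᵥ y.1 := rfl

theorem B_inj [DecidableEq ι] : Function.Injective (B ι) := by
  rw [injective_iff_map_eq_zero]
  intro x hx
  have h : ∀ y : V ι, x.1 ⬝ᵥ y.2 + x.2 ⬝ᵥ y.1 = 0 := fun y => by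
    rw [← B_apply, hx, LinearMap.zero_apply]
  apply Prod.ext
  · funext i
    have := h (0, Pi.single i 1)
    simpa using this
  · funext i
    have := h (Pi.single i 1, 0)
    simpa using this

theorem iso_rank [DecidableEq ι] (A : Set (V ι)) (hA : ∀ x ∈ A, ∀ y ∈ A, B ι x y = 0) :
    Module.finrank (ZMod 2) (Submodule.span (ZMod 2) A) ≤ Fintype.card ι := by
  set S := Submodule.span (ZMod 2) A with hS
  have h1 : ∀ x ∈ S, ∀ y ∈ A, B ι x y = 0 := by
    intro x hx y hy
    refine Submodule.span_induction (p := fun x _ => B ι x y = 0) ?_ ?_ ?_ ?_ hx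
    · intro x hx
      exact hA x hx y hy
    · rw [map_zero, LinearMap.zero_apply]
    · intro a b _ _ ha hb
      rw [map_add, LinearMap.add_apply, ha, hb, add_zero]
    · intro c a _ ha
      rw [map_smul, LinearMap.smul_apply, ha, smul_zero]
  have h2 : ∀ x ∈ S, ∀ y ∈ S, B ι x y = 0 := by
    intro x hx y hy
    refine Submodule.span_induction (p := fun y _ => B ι x y = 0) ?_ ?_ ?_ ?_ hy
    · intro y hy
      exact h1 x hx y hy
    · rw [map_zero]
    · intro a b _ _ ha hb
      rw [map_add, ha, hb, add_zero]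
    · intro c a _ ha
      rw [map_smul, ha, smul_zero]
  have h3 : S.map (B ι) ≤ S.dualAnnihilator := by
    rintro _ ⟨x, hx, rfl⟩
    rw [Submodule.mem_dualAnnihilator]
    intro y hy
    exact h2 x hx y hy
  have h4 : Module.finrank (ZMod 2) (S.map (B ι)) = Module.finrank (ZMod 2) S :=
    (Submodule.equivMapOfInjective (B ι) (B_inj ι) S).finrank_eq.symm
  have h5 : Module.finrank (ZMod 2) (S.map (B ι)) ≤ Module.finrank (ZMod 2) S.dualAnnihilator :=
    Submodule.finrank_mono h3
  have h6 : Module.finrank (ZMod 2) S + Module.finrank (ZMod 2) S.dualAnnihilator =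
      Module.finrank (ZMod 2) (V ι) := Subspace.finrank_add_finrank_dualAnnihilator_eq S
  have h7 : Module.finrank (ZMod 2) (V ι) = 2 * Fintype.card ι := by
    rw [Module.finrank_prod, Module.finrank_pi]
    ring
  omega

theorem iso_card [DecidableEq ι] (A : Finset (V ι)) (hA : ∀ x ∈ A, ∀ y ∈ A, B ι x y = 0) :
    A.card ≤ 2 ^ Fintype.card ι := by
  have h1 := iso_rank ι (A : Set (V ι)) (fun x hx y hy => hA x hx y hy)
  set S := Submodule.span (ZMod 2) (A : Set (V ι)) with hS
  have h2 : Nat.card S = 2 ^ Module.finrank (ZMod 2) S := by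
    rw [Module.natCard_eq_pow_finrank (K := ZMod 2), Nat.card_zmod]
  have h3 : A.card ≤ Nat.card S := by
    have h4 := Nat.card_le_card_of_injective
      (fun a : A => (⟨a, Submodule.subset_span a.2⟩ : S)) (fun a b h => by
        apply Subtype.ext
        exact congrArg (fun z : S => (z : V ι)) h)
    simpa using h4
  calc A.card ≤ Nat.card S := h3
    _ = 2 ^ Module.finrank (ZMod 2) S := h2
    _ ≤ 2 ^ Fintype.card ι := Nat.pow_le_pow_right (by norm_num) h1

end form

/-- bits -/
def bt (b : Bool) : ZMod 2 := if b then 1 else 0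

theorem bt_inj : Function.Injective bt := by decide

theorem bt_and (a b : Bool) : (if a && b then (1 : ZMod 2) else 0) = bt a * bt b := by
  revert a b
  decide

/-- coordinates -/
def co {k : ℕ} (x : Fin k → Bool × Bool) : Fin k × Fin 2 → ZMod 2 :=
  fun i => if i.2 = 0 then bt (x i.1).1 else bt (x i.1).2

theorem co_inj {k : ℕ} : Function.Injective (co (k := k)) := by
  intro x y h
  funext r
  apply Prod.ext
  · apply bt_inj
    have := congrFun h (r, 0)
    simpa [co] using this
  · apply bt_inj
    have := congrFun h (r, 1)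
    simpa [co] using this

theorem pr_eq {k : ℕ} (x v : Fin k → Bool × Bool) : pr x v = co x ⬝ᵥ co v := by
  unfold pr dotProduct
  rw [Fintype.sum_prod_type]
  refine Finset.sum_congr rfl fun r _ => ?_
  rw [Fin.sum_univ_two, bt_and, bt_and]
  simp [co]

theorem combk : COMBK := by
  classical
  intro J _ _ k U hU
  have h1 : U.card = ∑ j : J, (U.filter fun i => i.1.1 = j).card :=
    Finset.card_eq_sum_card_fiberwise (fun i _ => Finset.mem_univ _)
  have h2 : ∀ j : J, (U.filter fun i => i.1.1 = j).card ≤ 4 ^ k := by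
    intro j
    set f : IK J k → V (Fin k × Fin 2) := fun i => (co i.1.2.1, co i.1.2.2) with hf
    have e : (U.filter fun i => i.1.1 = j).card = ((U.filter fun i => i.1.1 = j).image f).card := by
      rw [Finset.card_image_of_injOn]
      intro a ha b hb hab
      rw [Finset.mem_coe, Finset.mem_filter] at ha hb
      have e1 := co_inj (congrArg Prod.fst hab)
      have e2 := co_inj (congrArg Prod.snd hab)
      apply Subtype.ext
      exact Prod.ext (ha.2.trans hb.2.symm) (Prod.ext e1 e2)
    rw [e]
    refine (iso_card _ _ ?_).trans ?_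
    · intro x hx y hy
      rw [Finset.mem_image] at hx hy
      obtain ⟨a, ha, rfl⟩ := hx
      obtain ⟨b, hb, rfl⟩ := hy
      have h3 := hU a (Finset.mem_filter.1 ha).1 b (Finset.mem_filter.1 hb).1
      unfold LK at h3
      rw [decide_eq_decide] at h3
      rw [B_apply]
      simp only [hf]
      rw [pr_eq, pr_eq] at h3
      rw [dotProduct_comm (co a.1.2.1)]
      have key : ∀ p q : ZMod 2, (p = 1 ↔ q = 1) → p + q = 0 := by decide
      exact key _ _ h3
    · rw [Fintype.card_prod, Fintype.card_fin, Fintype.card_fin, mul_comm, pow_mul]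
      norm_num
  have h3 : U.card ≤ Fintype.card J * 4 ^ k := by
    rw [h1]
    calc ∑ j : J, (U.filter fun i => i.1.1 = j).card ≤ ∑ _j : J, 4 ^ k :=
          Finset.sum_le_sum fun j _ => h2 j
      _ = Fintype.card J * 4 ^ k := by rw [Finset.sum_const, Finset.card_univ, smul_eq_mul]
  have h4 : (U.card : ℝ) ≤ Fintype.card J * 4 ^ k := by exact_mod_cast h3
  calc (U.card : ℝ) * (1 / 4) ^ k ≤ Fintype.card J * 4 ^ k * (1 / 4) ^ k :=
        mul_le_mul_of_nonneg_right h4 (by positivity)
    _ = Fintype.card J := by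
        rw [mul_assoc, ← mul_pow]
        norm_num

end Pool.Agent.W469.SM.Comb
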