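import Pool.Agent.W125.RK2.SUBB
import Pool.Agent.W342.RK2.LocL
import Pool.Agent.W262.SH.StmK

/-!
# Project SM: growth of the average of the k-th power of the Selmer count
(adaptation of Pool.Agent.W125.RK2.SUBB)
-/

set_option autoImplicit false

namespace Pool.Agent.W469.SM.Sub

open Finset Pool.Agent.W262.RK Pool.Agent.W262.SH
open Pool.Agent.W125.RK2 (LL_neg sum_inter NL_congr)

theorem subbk : SUBBK := by
  classical
  intro J _ _ κ k z y hz hκ0 hκz s e hT
  have h4 : SUB4 := Pool.Agent.W125.RK2.sub4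
  have hx : XCL := Pool.Agent.W342.RK2.xcl
  set cls : J → Fin 4 := fun _ => 3 with hcls
  have hT' : (∀ j, s j * e j ∈ (PP z y).divisors) ∧
      ∀ i j, i ≠ j → (s i * e i).Coprime (s j * e j) := by
    unfold Tup at hT
    rw [mem_filter, Fintype.mem_piFinset] at hT
    exact hT
  have hsqj : ∀ j, Squarefree (s j * e j) := fun j => dv_squarefree (hT'.1 j)
  have hsq : ∀ U : Finset J, Squarefree (∏ j ∈ U, (s j * e j)) := by
    intro U
    apply Finset.squarefree_prod_of_pairwise_isCoprime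
    · intro i _ j _ hij
      exact Nat.coprime_iff_isRelPrime.1 (hT'.2 i j hij)
    · intro j _
      exact hsqj j
  have hsq2 : ∀ U : Finset J, Squarefree ((∏ j ∈ U, s j) * ∏ j ∈ U, e j) := by
    intro U
    rw [← Finset.prod_mul_distrib]
    exact hsq U
  have hs0 : ∀ j, s j ≠ 0 := fun j => left_ne_zero_of_mul (hsqj j).ne_zero
  have he0 : ∀ j, e j ≠ 0 := fun j => right_ne_zero_of_mul (hsqj j).ne_zero
  set P := P3 cls s with hP
  set Q := P3 cls e with hQ
  have hPQ : Disjoint P Q := by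
    have h1 := Nat.coprime_of_squarefree_mul (hsq2 (univ.filter (fun j => cls j = 3)))
    exact h1.disjoint_primeFactors
  have hPU : P3 cls (fun j => s j * e j) = P ∪ Q := by
    rw [hP, hQ]
    unfold P3
    rw [Finset.prod_mul_distrib]
    exact Nat.primeFactors_mul (prod_ne_zero_iff.2 fun j _ => hs0 j)
      (prod_ne_zero_iff.2 fun j _ => he0 j)
  have hprod : ∏ j, (s j * e j) = (∏ j, s j) * ∏ j, e j := Finset.prod_mul_distrib
  have hme : Squarefree ((∏ j, s j) * ∏ j, e j) := hsq2 univ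
  -- primes dividing `∏ s`
  have hpr : ∀ p : ℕ, p.Prime → p ∣ ∏ j, s j → ∃ j0, p ∣ s j0 ∧ z < p := by
    intro p hp h
    obtain ⟨j0, _, hj0⟩ := (hp.prime.dvd_finsetProd_iff _).1 h
    refine ⟨j0, hj0, ?_⟩
    exact (dv_prime (hT'.1 j0) hp (hj0.trans (Dvd.intro _ rfl))).1
  have hiff : ∀ p : ℕ, p.Prime → p ∣ ∏ j, s j → ∀ j, p ∣ s j * e j ↔ p ∣ s j := by
    intro p hp h j
    constructor
    · intro hj
      obtain ⟨j0, hj0, _⟩ := hpr p hp h
      by_cases hjj : j = j0
      · rw [hjj]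
        exact hj0
      · exfalso
        have h1 := hT'.2 j j0 hjj
        have h2 : p ∣ (s j * e j).gcd (s j0 * e j0) := Nat.dvd_gcd hj (hj0.trans (Dvd.intro _ rfl))
        rw [h1.gcd_eq_one] at h2
        exact hp.one_lt.ne' (Nat.dvd_one.1 h2)
    · intro hj
      exact hj.trans (Dvd.intro _ rfl)
  have hXC : ∀ E : Finset ℕ, ∀ p, p.Prime → p ∣ ∏ j, s j →
      XC (LLs cls κ (fun j => s j * e j) E p) := by
    intro E p hp h
    obtain ⟨_, _, hzp⟩ := hpr p hp h
    have h1 : ∀ j, XC (LL (cls j) (κ j) (decide (p ∈ E)) p) := by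
      intro j
      apply hx _ _ _ p hp (by omega)
      intro k hk
      have h2 := Int.natAbs_dvd_natAbs.2 hk
      rw [Int.natAbs_natCast] at h2
      have h3 := Nat.le_of_dvd (Int.natAbs_pos.2 (hκ0 j k)) h2
      have h4 := hκz j k
      omega
    constructor
    · intro j _
      exact (h1 j).1
    · intro a b c d a' b' c' d' g g' j hj
      exact (h1 j).2 _ _ _ _ _ _ _ _ (g j hj) (g' j hj)
  have hNL : ∀ E : Finset ℕ, NL (∏ j, s j) (LLs cls κ (fun j => s j * e j) E) =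
      NL (∏ j, s j) (LLs cls κ s (E ∩ P)) := by
    intro E
    apply NL_congr
    intro p hp
    have hpp := Nat.prime_of_mem_primeFactors hp
    have hpd := Nat.dvd_of_mem_primeFactors hp
    funext v w h g
    unfold LLs
    apply propext
    apply forall_congr'
    intro j
    rw [hiff p hpp hpd j]
    apply imp_congr_right
    intro hj
    by_cases hc : cls j = 3
    · have hmem : p ∈ P := by
        rw [hP]
        unfold P3
        rw [Nat.mem_primeFactors]
        refine ⟨hpp, hj.trans (dvd_prod_of_mem s (mem_filter.2 ⟨mem_univ _, hc⟩)), ?_⟩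
        exact prod_ne_zero_iff.2 fun j _ => hs0 j
      have : (p ∈ E ∩ P) ↔ p ∈ E := by
        rw [mem_inter]
        exact ⟨fun h => h.1, fun h => ⟨h, hmem⟩⟩
      simp only [this]
    · rw [LL_neg hc (κ j) (decide (p ∈ E)) (decide (p ∈ E ∩ P)) p]
  have hω : (∏ j, e j).primeFactors.card ≤ ∑ j, (e j).primeFactors.card := by
    have h1 : (∏ j, e j).primeFactors ⊆ univ.biUnion (fun j => (e j).primeFactors) := by
      intro p hp
      rw [mem_biUnion]
      have hpp := Nat.prime_of_mem_primeFactors hp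
      obtain ⟨j, _, hj⟩ := (hpp.prime.dvd_finsetProd_iff _).1 (Nat.dvd_of_mem_primeFactors hp)
      exact ⟨j, mem_univ _, Nat.mem_primeFactors.2 ⟨hpp, hj, he0 j⟩⟩
    exact (Finset.card_le_card h1).trans card_biUnion_le
  have hstep : ∀ E : Finset ℕ, (NL (∏ j, (s j * e j)) (LLs cls κ (fun j => s j * e j) E) : ℝ) ≤
      4 ^ (∑ j, (e j).primeFactors.card) * (NL (∏ j, s j) (LLs cls κ s (E ∩ P)) : ℝ) := by
    intro E
    have h1 := h4 (∏ j, s j) (∏ j, e j) (LLs cls κ (fun j => s j * e j) E) hme (hXC E)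
    rw [hNL E] at h1
    rw [hprod]
    have h2 : (NL ((∏ j, s j) * ∏ j, e j) (LLs cls κ (fun j => s j * e j) E) : ℝ) ≤
        4 ^ (∏ j, e j).primeFactors.card * (NL (∏ j, s j) (LLs cls κ s (E ∩ P)) : ℝ) := by
      exact_mod_cast h1
    refine h2.trans ?_
    apply mul_le_mul_of_nonneg_right _ (Nat.cast_nonneg _)
    exact pow_le_pow_right₀ (by norm_num) hω
  have hstepk : ∀ E : Finset ℕ,
      (NL (∏ j, (s j * e j)) (LLs cls κ (fun j => s j * e j) E) : ℝ) ^ k ≤
      (4 ^ k) ^ (∑ j, (e j).primeFactors.card) *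
        (NL (∏ j, s j) (LLs cls κ s (E ∩ P)) : ℝ) ^ k := by
    intro E
    have h1 := pow_le_pow_left₀ (Nat.cast_nonneg _) (hstep E) k
    rw [mul_pow, ← pow_mul, mul_comm (∑ j, (e j).primeFactors.card) k, pow_mul] at h1
    exact h1
  unfold NBK
  change (1 / 2 : ℝ) ^ (P3 cls (fun j => s j * e j)).card *
    ∑ E ∈ (P3 cls (fun j => s j * e j)).powerset,
      (NL (∏ j, (s j * e j)) (LLs cls κ (fun j => s j * e j) E) : ℝ) ^ k ≤
    (4 ^ k) ^ (∑ j, (e j).primeFactors.card) * ((1 / 2 : ℝ) ^ (P3 cls s).card *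
    ∑ E ∈ (P3 cls s).powerset, (NL (∏ j, s j) (LLs cls κ s E) : ℝ) ^ k)
  rw [hPU, ← hP, card_union_of_disjoint hPQ]
  calc (1 / 2 : ℝ) ^ (P.card + Q.card) *
      ∑ E ∈ (P ∪ Q).powerset, (NL (∏ j, (s j * e j)) (LLs cls κ (fun j => s j * e j) E) : ℝ) ^ k ≤
      (1 / 2 : ℝ) ^ (P.card + Q.card) * ∑ E ∈ (P ∪ Q).powerset,
        (4 ^ k) ^ (∑ j, (e j).primeFactors.card) *
          (NL (∏ j, s j) (LLs cls κ s (E ∩ P)) : ℝ) ^ k := by
        apply mul_le_mul_of_nonneg_left _ (by positivity)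
        exact Finset.sum_le_sum fun E _ => hstepk E
    _ = (4 ^ k) ^ (∑ j, (e j).primeFactors.card) * ((1 / 2 : ℝ) ^ P.card *
        ∑ E ∈ P.powerset, (NL (∏ j, s j) (LLs cls κ s E) : ℝ) ^ k) := by
        rw [← Finset.mul_sum, Pool.Agent.W125.RK2.sum_inter P Q hPQ
          (fun E => (NL (∏ j, s j) (LLs cls κ s E) : ℝ) ^ k), pow_add]
        have h2 : (1 / 2 : ℝ) ^ Q.card * 2 ^ Q.card = 1 := by
          rw [← mul_pow]
          norm_num
        linear_combination ((4 ^ k) ^ (∑ j, (e j).primeFactors.card) * ((1 / 2 : ℝ) ^ P.card *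
          ∑ E ∈ P.powerset, (NL (∏ j, s j) (LLs cls κ s E) : ℝ) ^ k)) * h2

end Pool.Agent.W469.SM.Sub
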